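import Mathlib
import Pool.Agent.Results.MP_1da119_pr.StairsDivergence
import Pool.Agent.Y774.ST.DivC
import Pool.Agent.Y774.ST.Zero
import Pool.Agent.Y774.ST.Lit
import Pool.Agent.Y182.ST.H
import Pool.Agent.Y979.ST.Conv
import Pool.Agent.Y254.ST.W

/-!
# MP_1da119_pr: for which sequences does the random walk on stairs diverge?

The walk of Latuszynski, Roberts and Rosenthal (definitions of the starting file
`StairsDivergence`: at every site the FORWARD neighbour is proposed with probability
`1/2 + 4/a_t`, and accepted with the Gibbs probability).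

For power sequences `a_t = c t^γ` (`c ≥ 8`, `γ > 0`): divergence has probability one iff
`γ ≤ 1/3`, probability zero iff `γ ≥ 1/2`, and a probability strictly between `0` and `1` for
`1/3 < γ < 1/2`.  For general regular sequences, almost sure divergence is equivalent to
`Σ a_t⁻³ = ∞`.  The last part treats the walk exactly as printed in the problem file (backward
bias at the sites `(j+1,j)`): it never diverges.
-/

set_option autoImplicit false

namespace Pool.Agent.Results.MP_1da119_pr.PhaseDiagram

open MeasureTheory ProbabilityTheory Filter Topology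
open Pool.Agent.Results.MP_1da119_pr.StairsDivergence
open Pool.Agent.Y774.ST

noncomputable section

/-- The probability that the walk with parameters `a` diverges: its second coordinate tends to
infinity. -/
def escape (a : ℕ → ℝ) : ENNReal :=
  noise {ω | Tendsto (fun t => (walk a ω t).2) atTop atTop}

/-- The same probability for the walk as printed in the problem file (`stepPrinted`: forward bias
at the sites `(j,j)`, backward bias at the sites `(j+1,j)`). -/
def escapePrinted (a : ℕ → ℝ) : ENNReal :=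
  noise {ω | Tendsto (fun t => (walkPrinted a ω t).2) atTop atTop}

theorem escape_eq_one {a : ℕ → ℝ}
    (h : ∀ᵐ ω ∂noise, Tendsto (fun t => (walk a ω t).2) atTop atTop) : escape a = 1 := by
  unfold escape
  rw [← measure_univ (μ := noise)]
  exact measure_congr (eventuallyEq_univ.2 h)

theorem regular {a : ℕ → ℝ} {K : ℝ} (h : Reg a K) :
    0 < escape a ∧ (escape a = 1 ↔ ¬ Summable (fun t => 1 / a t ^ 3)) := by
  refine ⟨h.pos_prob Pool.Agent.Y254.ST.main, ?_, fun hs => escape_eq_one (h.divergence hs)⟩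
  intro h1 hs
  have := Pool.Agent.Y979.ST.Conv.main Pool.Agent.Y182.ST.main a h.eight h.mono hs
  exact absurd h1 this.ne

/-- **MP_1da119_pr.**  Which sequences make the random walk on stairs diverge. -/
theorem result :
    -- every sequence with `a_t³ log t = o(t)`: almost sure divergence
    (∀ a : ℕ → ℝ, (∀ t, 1 ≤ t → 8 ≤ a t) →
      Tendsto (fun t : ℕ => a t ^ 3 * Real.log t / t) atTop (𝓝 0) → escape a = 1) ∧
    -- every nondecreasing sequence with `Σ a_t⁻³ < ∞`: no almost sure divergence
    (∀ a : ℕ → ℝ, (∀ t, 1 ≤ t → 8 ≤ a t) → (∀ s t, 1 ≤ s → s ≤ t → a s ≤ a t) →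
      Summable (fun t => 1 / a t ^ 3) → escape a < 1) ∧
    -- the exact criterion for regular sequences
    (∀ a : ℕ → ℝ, (∀ t, 1 ≤ t → 8 ≤ a t) → (∀ s t, 1 ≤ s → s ≤ t → a s ≤ a t) →
      (∃ K : ℝ, ∀ t : ℕ, 1 ≤ t → a (t+1) ≤ (1 + K/t) * a t) →
      Tendsto (fun t : ℕ => a t ^ 2 * Real.log t / t) atTop (𝓝 0) →
      0 < escape a ∧ (escape a = 1 ↔ ¬ Summable (fun t => 1 / a t ^ 3))) ∧
    -- sequences growing at least like `√t`: no divergence at all
    (∀ a : ℕ → ℝ, (∀ t, 1 ≤ t → 8 ≤ a t) → ∀ δ : ℝ, 0 < δ →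
      (∀ t : ℕ, 1 ≤ t → δ * Real.sqrt t ≤ a t) → escape a = 0) ∧
    -- power sequences: the complete phase diagram
    (∀ c γ : ℝ, 8 ≤ c → 0 < γ →
      ((∀ t : ℕ, 1 ≤ t → 8 ≤ c * (t:ℝ)^γ) ∧
        (∀ s t : ℕ, 1 ≤ s → s ≤ t → c * (s:ℝ)^γ ≤ c * (t:ℝ)^γ) ∧
        Tendsto (fun t : ℕ => c * (t:ℝ)^γ) atTop atTop) ∧
      (escape (fun t : ℕ => c * (t:ℝ)^γ) = 1 ↔ γ ≤ 1/3) ∧
      (escape (fun t : ℕ => c * (t:ℝ)^γ) = 0 ↔ 1/2 ≤ γ)) ∧
    -- the walk exactly as printed in the problem file never diverges
    (∀ a : ℕ → ℝ, (∀ t, 1 ≤ t → 8 ≤ a t) → escapePrinted a = 0) := by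
  refine ⟨fun a ha hl => escape_eq_one (divergence_of_small a ha hl),
    fun a ha hm hs => Pool.Agent.Y979.ST.Conv.main Pool.Agent.Y182.ST.main a ha hm hs, ?_,
    fun a ha δ hδ h => zero_prob a ha δ hδ h, ?_, fun a ha => printed_zero a ha⟩
  · rintro a ha hm ⟨K, hK⟩ hl
    refine regular (K := max K 1) ⟨ha, hm, lt_of_lt_of_le one_pos (le_max_right _ _), ?_, hl⟩
    intro t ht
    refine (hK t ht).trans ?_
    have h8 := ha t ht
    have htr : (0:ℝ) < t := by exact_mod_cast ht
    apply mul_le_mul_of_nonneg_right _ (by linarith)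
    have : K/t ≤ max K 1/t := div_le_div_of_nonneg_right (le_max_left _ _) htr.le
    linarith
  · intro c γ hc hγ
    have h8 : ∀ t : ℕ, 1 ≤ t → 8 ≤ c * (t:ℝ)^γ := by
      intro t ht
      have := rpow_ge_one ht hγ.le
      nlinarith
    refine ⟨⟨h8, ?_, ?_⟩, ?_⟩
    · intro s t _ hst
      apply mul_le_mul_of_nonneg_left _ (by linarith)
      exact Real.rpow_le_rpow (Nat.cast_nonneg _) (by exact_mod_cast hst) hγ.le
    · exact ((tendsto_rpow_atTop hγ).comp tendsto_natCast_atTop_atTop).const_mul_atTop (by linarith)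
    · rcases lt_or_ge γ (1/2) with h | h
      · obtain ⟨h1, h2⟩ := regular (pow_reg hc hγ h)
        refine ⟨?_, ?_⟩
        · rw [h2, pow_summable hc, not_lt]
        · constructor
          · intro h3; exact absurd h3 h1.ne'
          · intro h3; linarith
      · have hz : escape (fun t : ℕ => c * (t:ℝ)^γ) = 0 := by
          apply zero_prob _ h8 c (by linarith)
          intro t ht
          apply mul_le_mul_of_nonneg_left _ (by linarith)
          rw [Real.sqrt_eq_rpow]
          exact Real.rpow_le_rpow_of_exponent_le (by exact_mod_cast ht) h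
        rw [hz]
        refine ⟨?_, ?_⟩
        · constructor
          · intro h3; exact absurd h3 zero_ne_one
          · intro h3; linarith
        · exact ⟨fun _ => h, fun _ => rfl⟩

end

end Pool.Agent.Results.MP_1da119_pr.PhaseDiagram
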